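import Mathlib
import Pool.Agent.H.MP_db33a0_lc.B

namespace Pool.Agent.H.MP_acc005_lc

open Filter Pool.Agent.H.MP_db33a0_lc

section
variable (U : Type) [TU U]

abbrev One : PUnit.{2} → Type := fun _ => E U

theorem ultF [Finite U] : Ult (One U) := by
  intro I 𝒰 k v
  refine ⟨⟨⟩, ult (U := fun _ => U) (U' := U) (R := fun a b => ∀ᶠ i in 𝒰, a i = b) ⟨?_, ?_, ?_⟩ ?_ v⟩
  · intro a b a' b' r r'
    rw [ev_iff (q := fun _ => b ≤ b') (by filter_upwards [r, r'] with i x y; rw [x, y])]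
    simp
  · intro a b a' b' r r'
    filter_upwards [r, r'] with i x y
    rw [x, y]
  · intro a b a' b' _ _ _
    simp
  · intro a
    have := (Ultrafilter.eventually_exists_iff (f := 𝒰) (P := fun b i => a i = b)).1
      (Eventually.of_forall fun i => ⟨a i, rfl⟩)
    exact this

theorem amalF (h : ∀ S : U → U → Prop, PIso S → ∀ a b, S a b → a = b) : Amal (One U) := by
  intro i j v v' W H
  obtain ⟨S, hS, r⟩ := exists_piso v v' W H
  refine ⟨⟨⟩, v, v', fun w hw => ?_, fun _ => Iff.rfl, fun _ => Iff.rfl⟩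
  have := r w hw
  generalize v w = x, v' w = y at this
  rcases this with _ | _ | ⟨u, u', r⟩ | ⟨u, u', r⟩
  · rfl
  · rfl
  · rw [h S hS _ _ r]
  · rw [h S hS _ _ r]

theorem lk [Finite U] : ConsM (Lg (One U)) = Mod (One U) :=
  linkM (ultF U) (fun _ => E.disc) (fun _ => E.prelin)

theorem dipF [Finite U] (h : ∀ S : U → U → Prop, PIso S → ∀ a b, S a b → a = b) :
    DIP (ConsM (Lg (One U))) := by
  rw [lk]
  exact dip (ultF U) (fun _ => E.disc) (amalF U h)

end

instance : TU (Fin 4) where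
  m := 3
  g := ![![3,3,3,3],![3,3,2,1],![3,2,2,0],![3,1,0,0]]
  le_m := by decide
  comm := by decide
  gal := by decide

instance : TU (Fin 5) where
  m := 4
  g := ![![4,4,4,4,4],![4,3,3,3,0],![4,3,2,1,0],![4,3,1,1,0],![4,0,0,0,0]]
  le_m := by decide
  comm := by decide
  gal := by decide

theorem rigA (S : Fin 4 → Fin 4 → Prop) (h : PIso S) (a b : Fin 4) (r : S a b) : a = b := by
  have r1 := h.g _ _ _ _ r r
  have r2 := h.g _ _ _ _ r r1
  have h1 := h.le _ _ _ _ r r1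
  have h2 := h.le _ _ _ _ r1 r
  have h3 := h.le _ _ _ _ r2 r
  clear r r1 r2
  revert a b
  decide

theorem rigB (S : Fin 5 → Fin 5 → Prop) (h : PIso S) (a b : Fin 5) (r : S a b) : a = b := by
  have r1 := h.g _ _ _ _ r r
  have h1 := h.le _ _ _ _ r r1
  have h2 := h.le _ _ _ _ r1 r
  by_cases c : a ≤ TU.g a a ∧ TU.g a a ≤ a
  · clear r r1
    revert a b
    decide
  · have m : S TU.m TU.m := by
      rcases not_and_or.1 c with c | c
      · exact h.m _ _ _ _ r r1 c
      · exact h.m _ _ _ _ r1 r c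
    have h3 := h.le _ _ _ _ m r
    have h4 := h.le _ _ _ _ m r1
    clear r r1 m
    revert a b
    decide

def S0 (a : Fin 4) (b : Fin 5) : Prop := (a = 0 ∧ b = 0) ∨ (a = 2 ∧ b = 2) ∨ (a = 3 ∧ b = 4)

theorem S0_piso : PIso S0 := by
  refine ⟨?_, ?_, fun _ _ _ _ _ _ _ => .inr (.inr ⟨rfl, rfl⟩)⟩ <;> unfold S0 <;> decide

def G0 : Set Fm :=
  {.imp (.mul (.var 0) (.var 0)) (.var 3), .imp (.mul (.var 2) (.var 2)) (.mul (.var 2) (.var 0))}

def p0 : Fm :=
  .or (.imp (.mul (.var 1) (.var 1)) (.var 3)) (.imp (.mul (.var 2) (.var 2)) (.mul (.var 2) (.var 1)))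

theorem mono {A : Type} [FLew A] {x y : A} (z : A) (h : x ≤ y) : x * z ≤ y * z :=
  (FLew.res _ _ _).2 (h.trans ((FLew.res _ _ _).1 le_rfl))

theorem mp {A : Type} [FLew A] (x y : A) : FLew.imp x y * x ≤ y := (FLew.res _ _ _).2 le_rfl

theorem cons (L : Set Fm) : ConsM L G0 p0 := by
  intro A _ hP v hv
  have h1 := hv _ (.inr (.inl rfl))
  have h2 := hv _ (.inr (.inr rfl))
  simp only [ev, imp_eq_one] at h1 h2
  simp only [p0, ev]
  have h3 := hP (v 0) (v 1)
  have m1 := mp (v 0) (v 1)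
  have m2 := mp (v 1) (v 0)
  generalize FLew.imp (v 0) (v 1) = p, FLew.imp (v 1) (v 0) = q at *
  generalize v 0 = a, v 1 = b, v 2 = c, v 3 = n at *
  have a1 : p ≤ FLew.imp (c * c) (c * b) := by
    rw [← FLew.res, mul_comm]
    refine (mono p h2).trans ?_
    rw [mul_assoc, mul_comm c, mul_comm c, mul_comm a]
    exact mono c m1
  have a2 : q * q ≤ FLew.imp (b * b) n := by
    rw [← FLew.res, mul_mul_mul_comm]
    refine le_trans ((mono _ m2).trans ?_) h1
    rw [mul_comm]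
    exact mono a m2
  have a3 : q ≤ p ⊔ q * q := by
    refine (one_mul q).ge.trans ((FLew.res _ _ _).2 (h3.ge.trans (sup_le ?_ ?_)))
    · rw [← FLew.res, mul_comm]
      exact ((mono p (FLew.le_one q)).trans (one_mul p).le).trans le_sup_left
    · rw [← FLew.res]
      exact le_sup_right
  refine le_antisymm (FLew.le_one _) (h3.ge.trans (sup_le (a1.trans le_sup_right) (a3.trans ?_)))
  exact sup_le (a1.trans le_sup_right) (a2.trans le_sup_left)

theorem main : ¬ ∃ L0, SubClosed L0 ∧ DIP (ConsM L0) ∧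
    ∀ L, SubClosed L → DIP (ConsM L) → ∀ Γ φ, ConsM L0 Γ φ → ConsM L Γ φ := by
  rintro ⟨L0, -, h, hm⟩
  obtain ⟨Δ, h1, h2, h3⟩ := h _ _ (cons L0)
  have hA := hm _ (Lg_sub _) (dipF _ rigA)
  have hB := hm _ (Lg_sub _) (dipF _ rigB)
  rw [lk] at hA hB
  let v : ℕ → E (Fin 4) := fun n => if n = 3 then .lo 3 else if n = 2 then .hi 2 else .hi 1
  let v' : ℕ → E (Fin 5) := fun n => if n = 3 then .lo 4 else if n = 2 then .hi 2 else .hi 1
  have := hB _ _ h3 ⟨⟩ v' (fun δ hδ => by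
    rw [S0_piso.same v v' δ]
    · refine hA _ _ (h2 δ hδ) ⟨⟩ v ?_
      rintro ψ (rfl | rfl) <;> simp only [ev, imp_eq_one] <;> exact le_of_eq rfl
    · intro n hn
      have := h1 δ hδ hn
      simp [G0, p0, vars] at this
      have : n = 3 ∨ n = 2 := by omega
      rcases this with rfl | rfl
      · exact .lo _ _ (.inr (.inr ⟨rfl, rfl⟩))
      · exact .hi _ _ (.inr (.inl ⟨rfl, rfl⟩)))
  simp only [p0, ev] at this
  rcases max_choice (FLew.imp (v' 1 * v' 1) (v' 3)) (FLew.imp (v' 2 * v' 2) (v' 2 * v' 1)) with c | c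
  · rw [c, imp_eq_one] at this
    exact absurd (show (4 : Fin 5) ≤ 3 from this) (by decide)
  · rw [c, imp_eq_one] at this
    exact absurd (show (3 : Fin 5) ≤ 2 from this) (by decide)

end Pool.Agent.H.MP_acc005_lc
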